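import Mathlib

set_option autoImplicit false

namespace Pool.Agent.Lib.MP_f7c5a7_al.Three

open Matrix

/-- All entries of the matrix lie in the ideal. -/
def MI {A : Type} [CommRing A] (I : Ideal A) (M : Matrix (Fin 2) (Fin 2) A) : Prop :=
  ∀ i j, M i j ∈ I

section mi
variable {A : Type} [CommRing A]

theorem MI.sub {I : Ideal A} {M N : Matrix (Fin 2) (Fin 2) A} (hM : MI I M) (hN : MI I N) :
    MI I (M - N) := fun i j => by
  rw [Matrix.sub_apply]; exact I.sub_mem (hM i j) (hN i j)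

theorem MI.mul {I J : Ideal A} {M N : Matrix (Fin 2) (Fin 2) A} (hM : MI I M) (hN : MI J N) :
    MI (I * J) (M * N) := fun i j => by
  rw [Matrix.mul_apply]
  exact Ideal.sum_mem _ fun k _ => Ideal.mul_mem_mul (hM i k) (hN k j)

theorem MI.mul_left {I : Ideal A} {N : Matrix (Fin 2) (Fin 2) A} (hN : MI I N)
    (M : Matrix (Fin 2) (Fin 2) A) : MI I (M * N) := fun i j => by
  rw [Matrix.mul_apply]
  exact Ideal.sum_mem _ fun k _ => I.mul_mem_left _ (hN k j)

/-- The ideal generated by three elements with cube zero has seventh power zero. -/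
theorem pow_seven {a b c : A} (ha : a ^ 3 = 0) (hb : b ^ 3 = 0) (hc : c ^ 3 = 0) :
    (Ideal.span {a, b, c}) ^ 7 = ⊥ := by
  have key : ∀ k : ℕ, (Ideal.span {a, b, c}) ^ k ≤
      Ideal.span {x | ∃ i j l : ℕ, i + j + l = k ∧ x = a ^ i * b ^ j * c ^ l} := by
    intro k
    induction k with
    | zero =>
      rw [pow_zero, Ideal.one_eq_top]
      refine le_of_eq (Eq.symm ?_)
      rw [Ideal.eq_top_iff_one]
      exact Ideal.subset_span ⟨0, 0, 0, rfl, by simp⟩
    | succ k ih =>
      rw [pow_succ]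
      refine (Ideal.mul_mono_left ih).trans ?_
      rw [Ideal.span_mul_span', Ideal.span_le]
      rintro z ⟨x, ⟨i, j, l, hk, rfl⟩, y, hy, rfl⟩
      simp only [Set.mem_insert_iff, Set.mem_singleton_iff] at hy
      apply Ideal.subset_span
      rcases hy with rfl | rfl | rfl
      · exact ⟨i + 1, j, l, by omega, by simp only; ring⟩
      · exact ⟨i, j + 1, l, by omega, by simp only; ring⟩
      · exact ⟨i, j, l + 1, by omega, by simp only; ring⟩
  rw [eq_bot_iff]
  refine (key 7).trans ?_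
  rw [Ideal.span_le]
  rintro x ⟨i, j, l, hk, rfl⟩
  simp only [SetLike.mem_coe, Ideal.mem_bot]
  have h3 : 3 ≤ i ∨ 3 ≤ j ∨ 3 ≤ l := by omega
  rcases h3 with h | h | h
  · rw [pow_eq_zero_of_le h ha]; ring
  · rw [pow_eq_zero_of_le h hb]; ring
  · rw [pow_eq_zero_of_le h hc]; ring

/-- The matrix of an element of `SL_2`. -/
def mv : SpecialLinearGroup (Fin 2) A →* Matrix (Fin 2) (Fin 2) A where
  toFun g := g.1
  map_one' := rfl
  map_mul' _ _ := rfl

theorem mv_injective : Function.Injective (mv : SpecialLinearGroup (Fin 2) A → _) :=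
  fun _ _ h => Subtype.ext h

/-- The difference of `y` and the scalar matrix `y 1 1`. -/
def dv (y : SpecialLinearGroup (Fin 2) A) : Matrix (Fin 2) (Fin 2) A :=
  mv y - (mv y 1 1) • (1 : Matrix (Fin 2) (Fin 2) A)

/-- One step of the Engel word. -/
theorem step {I : Ideal A} (k : ℕ) (g y : SpecialLinearGroup (Fin 2) A)
    (hy : MI I (dv y)) (hg : MI (I ^ k) (mv g - 1)) :
    MI (I ^ (k + 1)) (mv (g⁻¹ * y⁻¹ * g * y) - 1) := by
  have h1 : mv g⁻¹ * mv g = 1 := by rw [← map_mul, inv_mul_cancel, map_one]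
  have h2 : mv y⁻¹ * mv y = 1 := by rw [← map_mul, inv_mul_cancel, map_one]
  have h3 : mv (g⁻¹ * y⁻¹ * g * y) - 1 =
      (mv g⁻¹ * mv y⁻¹) * ((mv g - 1) * dv y - dv y * (mv g - 1)) := by
    have h4 : (mv g - 1) * dv y - dv y * (mv g - 1) = mv g * mv y - mv y * mv g := by
      unfold dv
      simp only [mul_sub, sub_mul, mul_one, one_mul, Matrix.mul_smul, Matrix.smul_mul]
      abel
    rw [h4, mul_sub, map_mul, map_mul, map_mul]
    congr 1
    · simp only [mul_assoc]
    · calc (1 : Matrix (Fin 2) (Fin 2) A) = mv g⁻¹ * mv g := h1.symm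
        _ = mv g⁻¹ * (mv y⁻¹ * mv y) * mv g := by rw [h2, mul_one]
        _ = mv g⁻¹ * mv y⁻¹ * (mv y * mv g) := by simp only [mul_assoc]
  rw [h3]
  apply MI.mul_left
  apply MI.sub
  · rw [pow_succ]; exact MI.mul hg hy
  · rw [pow_succ']; exact MI.mul hy hg

/-- The Engel word `[x, _k y]` with `[x, y] = x⁻¹ y⁻¹ x y`. -/
def eng {G : Type} [Group G] (x y : G) : ℕ → G
  | 0 => x
  | k + 1 => (eng x y k)⁻¹ * y⁻¹ * eng x y k * y

theorem eng_mem {I : Ideal A} (x y : SpecialLinearGroup (Fin 2) A)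
    (hy : MI I (dv y)) (k : ℕ) : MI (I ^ k) (mv (eng x y k) - 1) := by
  induction k with
  | zero => intro i j; rw [pow_zero, Ideal.one_eq_top]; trivial
  | succ k ih => exact step k _ y hy ih

theorem map_eng {G H : Type} [Group G] [Group H] (f : G →* H) (x y : G) (k : ℕ) :
    f (eng x y k) = eng (f x) (f y) k := by
  induction k with
  | zero => rfl
  | succ k ih => simp only [eng, map_mul, map_inv, ih]

/-- If `y` is congruent to a scalar modulo elements with cube zero then `[x, _n y] = 1` for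
`n ≥ 7`. -/
theorem eng_seven (x y : SpecialLinearGroup (Fin 2) A) (ha : (mv y 0 0 - mv y 1 1) ^ 3 = 0)
    (hb : (mv y 0 1) ^ 3 = 0) (hc : (mv y 1 0) ^ 3 = 0) (n : ℕ) (hn : 7 ≤ n) :
    eng x y n = 1 := by
  have hI := pow_seven ha hb hc
  set I := Ideal.span {mv y 0 0 - mv y 1 1, mv y 0 1, mv y 1 0} with hIdef
  have hy : MI I (dv y) := by
    intro i j
    unfold dv
    fin_cases i <;> fin_cases j
    · have : (mv y - (mv y 1 1) • (1 : Matrix (Fin 2) (Fin 2) A)) 0 0 = mv y 0 0 - mv y 1 1 := by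
        simp [Matrix.sub_apply, Matrix.smul_apply]
      exact this ▸ Ideal.subset_span (by simp)
    · have : (mv y - (mv y 1 1) • (1 : Matrix (Fin 2) (Fin 2) A)) 0 1 = mv y 0 1 := by
        simp [Matrix.sub_apply, Matrix.smul_apply]
      exact this ▸ Ideal.subset_span (by simp)
    · have : (mv y - (mv y 1 1) • (1 : Matrix (Fin 2) (Fin 2) A)) 1 0 = mv y 1 0 := by
        simp [Matrix.sub_apply, Matrix.smul_apply]
      exact this ▸ Ideal.subset_span (by simp)
    · have : (mv y - (mv y 1 1) • (1 : Matrix (Fin 2) (Fin 2) A)) 1 1 = 0 := by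
        simp [Matrix.sub_apply, Matrix.smul_apply]
      exact this ▸ I.zero_mem
  apply mv_injective
  rw [map_one, ← sub_eq_zero]
  ext i j
  have h := eng_mem (I := I) x y hy n i j
  have h0 : I ^ n = ⊥ := by
    rw [eq_bot_iff, ← hI]; exact Ideal.pow_le_pow_right hn
  rw [h0, Ideal.mem_bot] at h
  exact h

/-- Cayley-Hamilton: `(g - 1)^2 = (tr g - 2) g`. -/
theorem ch (g : SpecialLinearGroup (Fin 2) A) :
    (mv g - 1) ^ 2 = (mv g 0 0 + mv g 1 1 - 2) • mv g := by
  have hd : mv g 0 0 * mv g 1 1 - mv g 0 1 * mv g 1 0 = 1 := by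
    have := g.2
    rw [Matrix.det_fin_two] at this
    exact this
  rw [pow_two]
  ext i j
  rw [Matrix.mul_apply, Fin.sum_univ_two]
  fin_cases i <;> fin_cases j <;>
    simp [Matrix.sub_apply, Matrix.smul_apply] <;>
    first | linear_combination -hd | ring

end mi

end Pool.Agent.Lib.MP_f7c5a7_al.Three
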