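import Mathlib
import Pool.Agent.Lib.MP_f7c5a7_al.Three.Core

set_option autoImplicit false

namespace Pool.Agent.Lib.MP_f7c5a7_al.Three

open Matrix

/-- The elementary abelian 3-group of countable rank. -/
abbrev EG : Type := Multiplicative (ℕ →₀ ZMod 3)

/-- Its group algebra over the field with three elements. -/
abbrev AG : Type := MonoidAlgebra (ZMod 3) EG

/-- The augmentation. -/
noncomputable def aug : AG →ₐ[ZMod 3] ZMod 3 := MonoidAlgebra.lift (ZMod 3) (ZMod 3) EG 1

theorem aug_single (g : EG) (c : ZMod 3) : aug (MonoidAlgebra.single g c) = c := by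
  simp [aug]

instance charAG : CharP AG 3 :=
  charP_of_injective_algebraMap (algebraMap (ZMod 3) AG).injective 3

theorem EG_cube (g : EG) : g ^ 3 = 1 := by
  apply Multiplicative.toAdd.injective
  ext i
  rw [toAdd_pow, toAdd_one, Finsupp.smul_apply, Finsupp.zero_apply]
  generalize (Multiplicative.toAdd g) i = c
  revert c; decide

theorem cube (a : AG) : a ^ 3 = algebraMap (ZMod 3) AG (aug a) := by
  have : ExpChar AG 3 := ExpChar.prime Nat.prime_three
  have h : (frobenius AG 3) = (algebraMap (ZMod 3) AG).comp (aug : AG →+* ZMod 3) := by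
    apply MonoidAlgebra.ringHom_ext
    · intro c
      rw [frobenius_def, MonoidAlgebra.single_pow, one_pow, RingHom.comp_apply]
      simp only [RingHom.coe_coe, aug_single]
      rw [ZMod.pow_card]
      rfl
    · intro g
      rw [frobenius_def, MonoidAlgebra.single_pow, one_pow, EG_cube, RingHom.comp_apply]
      simp only [RingHom.coe_coe, aug_single, map_one]
      rfl
  have := congrArg (fun f => f a) h
  simpa [frobenius_def] using this

theorem cube_zero (a : AG) (ha : aug a = 0) : a ^ 3 = 0 := by
  rw [cube, ha, map_zero]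

/-- The generator `t_i`. -/
noncomputable def tt (i : ℕ) : EG := Multiplicative.ofAdd (Finsupp.single i 1)

/-- `(t_i - 1)^2 = 1 + t_i + t_i^2`. -/
noncomputable def eta (i : ℕ) : AG :=
  MonoidAlgebra.single 1 1 + MonoidAlgebra.single (tt i) 1 + MonoidAlgebra.single (tt i ^ 2) 1

theorem eta_eq (i : ℕ) : eta i = (MonoidAlgebra.single (tt i) (1 : ZMod 3) - 1) ^ 2 := by
  have h3 : (3 : AG) = 0 := by
    have := CharP.cast_eq_zero AG 3
    exact_mod_cast this
  have h1 : (MonoidAlgebra.single (1 : EG) (1 : ZMod 3) : AG) = 1 := rfl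
  have h2 : (MonoidAlgebra.single (tt i ^ 2) (1 : ZMod 3) : AG) =
      (MonoidAlgebra.single (tt i) (1 : ZMod 3)) ^ 2 := by
    rw [MonoidAlgebra.single_pow, one_pow]
  unfold eta
  rw [h1, h2]
  linear_combination (MonoidAlgebra.single (tt i) (1 : ZMod 3) : AG) * h3

theorem aug_gen (i : ℕ) : aug (MonoidAlgebra.single (tt i) (1 : ZMod 3) - 1) = 0 := by
  rw [map_sub, aug_single, map_one, sub_self]

theorem eta_sq (i : ℕ) : eta i * eta i = 0 := by
  have h := cube_zero _ (aug_gen i)
  rw [eta_eq]
  calc _ = (MonoidAlgebra.single (tt i) (1 : ZMod 3) - 1 : AG) ^ 3 *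
      (MonoidAlgebra.single (tt i) (1 : ZMod 3) - 1) := by ring
    _ = 0 := by rw [h, zero_mul]

theorem aug_eta (i : ℕ) : aug (eta i) = 0 := by
  rw [eta_eq, map_pow, aug_gen, zero_pow (by norm_num)]

/-- The product of the `eta i` over a finite set. -/
noncomputable def etaS (S : Finset ℕ) : AG := ∏ i ∈ S, eta i

open Classical in
theorem etaS_apply (S : Finset ℕ) (x : EG) : (etaS S).coeff x =
    if ∀ i, i ∉ S → (Multiplicative.toAdd x) i = 0 then 1 else 0 := by
  induction S using Finset.induction_on generalizing x with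
  | empty =>
    unfold etaS
    rw [Finset.prod_empty]
    have : (∀ i, i ∉ (∅ : Finset ℕ) → (Multiplicative.toAdd x) i = 0) ↔ x = 1 := by
      constructor
      · intro h
        apply Multiplicative.toAdd.injective
        ext i
        rw [toAdd_one, Finsupp.zero_apply]
        exact h i (by simp)
      · rintro rfl i _; rfl
    rw [MonoidAlgebra.one_def, MonoidAlgebra.coeff_single, Finsupp.single_apply]
    simp only [this]
    by_cases hx : x = 1
    · simp [hx]
    · rw [if_neg (Ne.symm hx), if_neg hx]
  | insert j S hj ih =>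
    have h1 : etaS (insert j S) = etaS S * eta j := by
      unfold etaS; rw [Finset.prod_insert hj, mul_comm]
    have h2 : (etaS (insert j S)).coeff x = (etaS S).coeff x + (etaS S).coeff (x * (tt j)⁻¹) +
        (etaS S).coeff (x * (tt j ^ 2)⁻¹) := by
      rw [h1]
      unfold eta
      rw [mul_add, mul_add]
      simp
    rw [h2, ih, ih, ih]
    have hx1 : ∀ i, (Multiplicative.toAdd (x * (tt j)⁻¹)) i =
        (Multiplicative.toAdd x) i - if j = i then 1 else 0 := by
      intro i
      rw [toAdd_mul, toAdd_inv, Finsupp.add_apply, Finsupp.neg_apply, tt, toAdd_ofAdd,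
        Finsupp.single_apply, sub_eq_add_neg]
    have hx2 : ∀ i, (Multiplicative.toAdd (x * (tt j ^ 2)⁻¹)) i =
        (Multiplicative.toAdd x) i - if j = i then 2 else 0 := by
      intro i
      rw [toAdd_mul, toAdd_inv, toAdd_pow, Finsupp.add_apply, Finsupp.neg_apply,
        Finsupp.smul_apply, tt, toAdd_ofAdd, Finsupp.single_apply, sub_eq_add_neg]
      congr 2
      split_ifs
      · rfl
      · simp
    have hcond : ∀ c : ZMod 3, (∀ i, i ∉ S → (Multiplicative.toAdd x) i -
        (if j = i then c else 0) = 0) ↔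
        ((∀ i, i ∉ insert j S → (Multiplicative.toAdd x) i = 0) ∧
          (Multiplicative.toAdd x) j = c) := by
      intro c
      constructor
      · intro h
        refine ⟨fun i hi => ?_, ?_⟩
        · have hne : j ≠ i := fun e => hi (by rw [e]; exact Finset.mem_insert_self _ _)
          have := h i (fun hS => hi (Finset.mem_insert_of_mem hS))
          rwa [if_neg hne, sub_zero] at this
        · have := h j hj
          rw [if_pos rfl] at this
          exact sub_eq_zero.mp this
      · rintro ⟨h, hc⟩ i hi
        by_cases e : j = i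
        · subst e; rw [if_pos rfl, hc, sub_self]
        · rw [if_neg e, sub_zero]
          apply h
          rw [Finset.mem_insert, not_or]
          exact ⟨fun e' => e e'.symm, hi⟩
    have hcond0 : (∀ i, i ∉ S → (Multiplicative.toAdd x) i = 0) ↔
        ((∀ i, i ∉ insert j S → (Multiplicative.toAdd x) i = 0) ∧
          (Multiplicative.toAdd x) j = 0) := by
      rw [← hcond 0]; simp
    simp only [hx1, hx2, hcond, hcond0]
    by_cases hA : ∀ i, i ∉ insert j S → (Multiplicative.toAdd x) i = 0
    · rw [if_pos hA]
      simp only [eq_true hA, true_and]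
      generalize (Multiplicative.toAdd x) j = c
      revert c; decide
    · simp only [eq_false hA, false_and, if_false, add_zero]

theorem etaS_ne (S : Finset ℕ) : etaS S ≠ 0 := by
  intro h
  have h1 := etaS_apply S 1
  have h2 : ∀ i, i ∉ S → (Multiplicative.toAdd (1 : EG)) i = 0 := fun i _ => rfl
  rw [h, if_pos h2] at h1
  exact absurd h1 (by simp)

theorem etaS_union {S T : Finset ℕ} (h : Disjoint S T) : etaS (S ∪ T) = etaS S * etaS T := by
  unfold etaS; rw [Finset.prod_union h]

theorem etaS_sq {S : Finset ℕ} (h : S.Nonempty) : etaS S * etaS S = 0 := by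
  obtain ⟨i, hi⟩ := h
  unfold etaS
  rw [← Finset.mul_prod_erase S eta hi]
  calc _ = (eta i * eta i) * ((∏ x ∈ S.erase i, eta x) * (∏ x ∈ S.erase i, eta x)) := by ring
    _ = 0 := by rw [eta_sq, zero_mul]

theorem aug_etaS {S : Finset ℕ} (h : S.Nonempty) : aug (etaS S) = 0 := by
  obtain ⟨i, hi⟩ := h
  unfold etaS
  rw [← Finset.mul_prod_erase S eta hi, map_mul, aug_eta, zero_mul]

end Pool.Agent.Lib.MP_f7c5a7_al.Three
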