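import Mathlib
import Pool.Agent.Lib.MP_f7c5a7_al.Three.Alg

set_option autoImplicit false

namespace Pool.Agent.Lib.MP_f7c5a7_al.Three

open Matrix

/-- The kernel of `SL_2(F_3[E]) → SL_2(F_3)`. -/
noncomputable def G3 : Subgroup (SpecialLinearGroup (Fin 2) AG) :=
  (SpecialLinearGroup.map (n := Fin 2) (aug : AG →+* ZMod 3)).ker

theorem mem_G3 (g : SpecialLinearGroup (Fin 2) AG) :
    g ∈ G3 ↔ ∀ i j, aug (mv g i j) = (1 : Matrix (Fin 2) (Fin 2) (ZMod 3)) i j := by
  unfold G3
  rw [MonoidHom.mem_ker]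
  constructor
  · intro h i j
    have := congrArg (fun z => mv z i j) h
    exact this
  · intro h
    apply mv_injective
    ext i j
    exact h i j

theorem cube_diag (g : SpecialLinearGroup (Fin 2) AG) (hg : g ∈ G3) :
    (mv g 0 0 - mv g 1 1) ^ 3 = 0 := by
  rw [mem_G3] at hg
  apply cube_zero
  rw [map_sub, hg, hg]; simp

theorem cube_off (g : SpecialLinearGroup (Fin 2) AG) (hg : g ∈ G3) :
    (mv g 0 1) ^ 3 = 0 ∧ (mv g 1 0) ^ 3 = 0 := by
  rw [mem_G3] at hg
  constructor
  · apply cube_zero; rw [hg]; simp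
  · apply cube_zero; rw [hg]; simp

theorem engel (x y : G3) (n : ℕ) (hn : 7 ≤ n) : eng x y n = 1 := by
  apply Subtype.ext
  have h := map_eng G3.subtype x y n
  have h2 := eng_seven (x : SpecialLinearGroup (Fin 2) AG) y (cube_diag _ y.2)
    (cube_off _ y.2).1 (cube_off _ y.2).2 n hn
  exact h.trans h2

theorem pow_nine (g : SpecialLinearGroup (Fin 2) AG) (hg : g ∈ G3) : g ^ 9 = 1 := by
  have h2 := ch g
  set τ := mv g 0 0 + mv g 1 1 - 2 with hτ
  have hτ3 : τ ^ 3 = 0 := by
    apply cube_zero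
    rw [mem_G3] at hg
    rw [hτ, map_sub, map_add, hg, hg, map_ofNat]; simp; decide
  have h6 : (mv g - 1) ^ 6 = 0 := by
    have : (mv g - 1) ^ 6 = ((mv g - 1) ^ 2) ^ 3 := by rw [← pow_mul]
    rw [this, h2, smul_pow, hτ3, zero_smul]
  have h9 : (mv g - 1) ^ 9 = 0 := pow_eq_zero_of_le (by norm_num) h6
  have h9' : (mv g - 1) ^ (3 ^ 2) = (mv g) ^ (3 ^ 2) - 1 ^ (3 ^ 2) :=
    sub_pow_char_pow_of_commute (p := 3) 2 (Commute.one_right _)
  have h10 : (mv g) ^ 9 = 1 := by
    have h11 : (mv g) ^ (3 ^ 2) - 1 ^ (3 ^ 2) = 0 := by rw [← h9']; exact h9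
    rw [one_pow, sub_eq_zero] at h11
    exact h11
  apply mv_injective
  rw [map_pow, h10, map_one]

theorem pgroup : IsPGroup 3 G3 := by
  intro g
  refine ⟨2, ?_⟩
  apply Subtype.ext
  exact pow_nine g.1 g.2

/-- Finitely many elements of the group algebra lie in a finite subalgebra. -/
theorem finite_adjoin (s : Set AG) (hs : s.Finite) : Finite (Algebra.adjoin (ZMod 3) s) := by
  have h1 : (Subalgebra.toSubmodule (Algebra.adjoin (ZMod 3) s)).FG := by
    apply fg_adjoin_of_finite hs
    intro x _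
    refine ⟨Polynomial.X ^ 3 - Polynomial.C (aug x), Polynomial.monic_X_pow_sub_C _ (by norm_num), ?_⟩
    rw [Polynomial.eval₂_sub, Polynomial.eval₂_pow, Polynomial.eval₂_X, Polynomial.eval₂_C, cube,
      sub_self]
  have h2 : Module.Finite (ZMod 3) (Algebra.adjoin (ZMod 3) s) := by
    rw [← Module.Finite.iff_fg] at h1
    exact h1
  exact Module.finite_of_finite (ZMod 3)

theorem finite_closure (s : Set (SpecialLinearGroup (Fin 2) AG)) (hs : s.Finite) :
    Finite (Subgroup.closure s) := by
  classical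
  set T : Set AG := ⋃ g ∈ s, ⋃ i : Fin 2, ⋃ j : Fin 2, {mv g i j} with hT
  have hTf : T.Finite := by
    rw [hT]
    exact hs.biUnion fun g _ => Set.finite_iUnion fun i => Set.finite_iUnion fun j =>
      Set.finite_singleton _
  have hB := finite_adjoin T hTf
  set B := Algebra.adjoin (ZMod 3) T with hBdef
  have hfin : Finite (SpecialLinearGroup (Fin 2) B) :=
    Finite.of_injective (fun g => (mv g : Matrix (Fin 2) (Fin 2) B)) mv_injective
  set f : SpecialLinearGroup (Fin 2) B →* SpecialLinearGroup (Fin 2) AG :=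
    SpecialLinearGroup.map (n := Fin 2) (B.val : B →+* AG) with hf
  have hle : Subgroup.closure s ≤ f.range := by
    rw [Subgroup.closure_le]
    intro g hg
    have hmem : ∀ i j, mv g i j ∈ B := fun i j => Algebra.subset_adjoin (by
      rw [hT]; simp only [Set.mem_iUnion]
      exact ⟨g, hg, i, j, rfl⟩)
    have hd : Matrix.det (Matrix.of fun i j => (⟨mv g i j, hmem i j⟩ : B)) = 1 := by
      rw [Matrix.det_fin_two]
      have := g.2
      rw [Matrix.det_fin_two] at this
      apply Subtype.ext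
      exact this
    refine ⟨⟨Matrix.of fun i j => (⟨mv g i j, hmem i j⟩ : B), hd⟩, ?_⟩
    · apply mv_injective
      ext i j
      rfl
  have hr : Finite f.range := Set.finite_range f
  exact Finite.of_injective (Subgroup.inclusion hle) (Subgroup.inclusion_injective hle)

theorem locnil (K : Subgroup G3) (hK : K.FG) : Group.IsNilpotent K := by
  obtain ⟨s, rfl⟩ := hK
  have h1 : Finite (Subgroup.closure (G3.subtype '' (s : Set G3))) :=
    finite_closure _ (s.finite_toSet.image _)
  have h2 : (Subgroup.closure (s : Set G3)).map G3.subtype =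
      Subgroup.closure (G3.subtype '' (s : Set G3)) := MonoidHom.map_closure _ _
  have h3 : Finite ((Subgroup.closure (s : Set G3)).map G3.subtype) := by rw [h2]; exact h1
  have h4 : Finite (Subgroup.closure (s : Set G3)) :=
    Finite.of_injective _ ((Subgroup.closure (s : Set G3)).equivMapOfInjective G3.subtype
      (Subgroup.subtype_injective _)).injective
  have : Fact (Nat.Prime 3) := ⟨Nat.prime_three⟩
  exact (pgroup.to_subgroup _).isNilpotent

end Pool.Agent.Lib.MP_f7c5a7_al.Three
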