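import Mathlib
import Pool.Agent.Lib.MP_f7c5a7_al.Three.Grp

set_option autoImplicit false

namespace Pool.Agent.Lib.MP_f7c5a7_al.Three

open Matrix
open scoped commutatorElement

/-- The standard basis `e`, `f`, `h` of `sl_2`. -/
noncomputable def bas : Fin 3 → Matrix (Fin 2) (Fin 2) AG
  | 0 => !![0, 1; 0, 0]
  | 1 => !![0, 0; 1, 0]
  | 2 => !![1, 0; 0, -1]

theorem three_zero : (3 : AG) = 0 := by
  have := CharP.cast_eq_zero AG 3
  exact_mod_cast this

theorem perfect_aux {R : Type} [CommRing R] (h3 : (3 : R) = 0) :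
    (!![0, 1; 0, 0] : Matrix (Fin 2) (Fin 2) R) =
      !![0, 1; 0, 0] * !![1, 0; 0, -1] - !![1, 0; 0, -1] * !![0, 1; 0, 0] ∧
    (!![0, 0; 1, 0] : Matrix (Fin 2) (Fin 2) R) =
      !![1, 0; 0, -1] * !![0, 0; 1, 0] - !![0, 0; 1, 0] * !![1, 0; 0, -1] ∧
    (!![1, 0; 0, -1] : Matrix (Fin 2) (Fin 2) R) =
      !![0, 1; 0, 0] * !![0, 0; 1, 0] - !![0, 0; 1, 0] * !![0, 1; 0, 0] := by
  refine ⟨?_, ?_, ?_⟩
  · ext i j
    fin_cases i <;> fin_cases j <;> simp [Matrix.sub_apply]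
    linear_combination h3
  · ext i j
    fin_cases i <;> fin_cases j <;> simp [Matrix.sub_apply]
    linear_combination h3
  · ext i j
    fin_cases i <;> fin_cases j <;> simp [Matrix.sub_apply]

theorem bas_perfect (k : Fin 3) : ∃ i j : Fin 3, bas k = bas i * bas j - bas j * bas i := by
  obtain ⟨h0, h1, h2⟩ := perfect_aux three_zero
  fin_cases k
  · exact ⟨0, 2, h0⟩
  · exact ⟨2, 1, h1⟩
  · exact ⟨0, 1, h2⟩

theorem det_bas (k : Fin 3) (μ : AG) (hμ : μ * μ = 0) :
    (1 + μ • bas k : Matrix (Fin 2) (Fin 2) AG).det = 1 := by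
  rw [Matrix.det_fin_two]
  fin_cases k <;> simp [bas, Matrix.add_apply]
  linear_combination -hμ

/-- The element `1 + μ X` exists in the group. -/
theorem exists_elt (k : Fin 3) (μ : AG) (hμ : μ * μ = 0) (ha : aug μ = 0) :
    ∃ g : G3, mv (g : SpecialLinearGroup (Fin 2) AG) = 1 + μ • bas k := by
  have hm : (⟨1 + μ • bas k, det_bas k μ hμ⟩ : SpecialLinearGroup (Fin 2) AG) ∈ G3 := by
    refine (mem_G3 _).mpr ?_
    intro i j
    change aug ((1 + μ • bas k : Matrix (Fin 2) (Fin 2) AG) i j) = _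
    rw [Matrix.add_apply, Matrix.smul_apply, smul_eq_mul, map_add, map_mul, ha, zero_mul, add_zero,
      Matrix.one_apply, Matrix.one_apply]
    split_ifs <;> simp
  exact ⟨⟨⟨1 + μ • bas k, det_bas k μ hμ⟩, hm⟩, rfl⟩

theorem mv_inv (g : SpecialLinearGroup (Fin 2) AG) (X : Matrix (Fin 2) (Fin 2) AG) (μ : AG)
    (hμ : μ * μ = 0) (hg : mv g = 1 + μ • X) : mv g⁻¹ = 1 - μ • X := by
  have h1 : mv g * (1 - μ • X) = 1 := by
    rw [hg]
    have : (μ • X) * (μ • X) = 0 := by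
      rw [Matrix.smul_mul, Matrix.mul_smul, smul_smul, hμ, zero_smul]
    calc (1 + μ • X) * (1 - μ • X) = 1 - (μ • X) * (μ • X) := by
          rw [mul_sub, add_mul, add_mul, one_mul, one_mul, mul_one]; abel
      _ = 1 := by rw [this, sub_zero]
  have h2 : mv g⁻¹ * mv g = 1 := by rw [← map_mul, inv_mul_cancel, map_one]
  calc mv g⁻¹ = mv g⁻¹ * (mv g * (1 - μ • X)) := by rw [h1, mul_one]
    _ = 1 - μ • X := by rw [← mul_assoc, h2, one_mul]

theorem nil_comm (P Q : Matrix (Fin 2) (Fin 2) AG) (h1 : P * P = 0) (h2 : Q * Q = 0)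
    (h3 : Q * P * Q = 0) (h4 : P * Q * P = 0) :
    (1 + P) * (1 + Q) * (1 - P) * (1 - Q) = 1 + (P * Q - Q * P) := by
  have e : (1 + P) * (1 + Q) * (1 - P) * (1 - Q) = 1 + (P * Q - Q * P) - P * P - Q * Q +
      P * P * Q + Q * P * Q - P * Q * P - P * (Q * Q) + P * Q * P * Q := by noncomm_ring
  rw [e, h1, h2, h3, h4]
  simp

theorem mv_comm (g h : SpecialLinearGroup (Fin 2) AG) (X Y : Matrix (Fin 2) (Fin 2) AG) (μ ν : AG)
    (hμ : μ * μ = 0) (hν : ν * ν = 0) (hg : mv g = 1 + μ • X) (hh : mv h = 1 + ν • Y) :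
    mv ⁅g, h⁆ = 1 + (μ * ν) • (X * Y - Y * X) := by
  rw [commutatorElement_def, map_mul, map_mul, map_mul, mv_inv g X μ hμ hg, mv_inv h Y ν hν hh,
    hg, hh]
  rw [nil_comm]
  · rw [Matrix.smul_mul, Matrix.mul_smul, smul_smul, Matrix.smul_mul, Matrix.mul_smul, smul_smul,
      mul_comm ν μ, smul_sub]
  · rw [Matrix.smul_mul, Matrix.mul_smul, smul_smul, hμ, zero_smul]
  · rw [Matrix.smul_mul, Matrix.mul_smul, smul_smul, hν, zero_smul]
  · simp only [Matrix.smul_mul, Matrix.mul_smul, smul_smul]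
    have e : ν * ν * μ = 0 := by rw [hν, zero_mul]
    have e' : ν * (μ * ν) = 0 := by rw [mul_comm μ, ← mul_assoc, hν, zero_mul]
    first | rw [e, zero_smul] | rw [e', zero_smul]
  · simp only [Matrix.smul_mul, Matrix.mul_smul, smul_smul]
    have e : μ * μ * ν = 0 := by rw [hμ, zero_mul]
    have e' : μ * (ν * μ) = 0 := by rw [mul_comm ν, ← mul_assoc, hμ, zero_mul]
    first | rw [e, zero_smul] | rw [e', zero_smul]

theorem not_solvable : ¬ Group.IsSolvable G3 := by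
  intro hs
  obtain ⟨n, hn⟩ := hs.solvable
  have key : ∀ k : ℕ, ∀ S : Finset ℕ, S.card = 2 ^ k → ∀ c : Fin 3,
      ∃ g : G3, g ∈ derivedSeries G3 k ∧
        mv (g : SpecialLinearGroup (Fin 2) AG) = 1 + etaS S • bas c := by
    intro k
    induction k with
    | zero =>
      intro S hS c
      have hne : S.Nonempty := by
        rw [← Finset.card_pos, hS]; norm_num
      obtain ⟨g, hg⟩ := exists_elt c (etaS S) (etaS_sq hne) (aug_etaS hne)
      exact ⟨g, by rw [derivedSeries_zero]; trivial, hg⟩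
    | succ k ih =>
      intro S hS c
      obtain ⟨T, hTS, hT⟩ := Finset.exists_subset_card_eq (s := S) (n := 2 ^ k)
        (by rw [hS, pow_succ]; omega)
      have hU : (S \ T).card = 2 ^ k := by
        rw [Finset.card_sdiff_of_subset hTS, hS, hT, pow_succ]; omega
      obtain ⟨i, j, hij⟩ := bas_perfect c
      obtain ⟨g, hg, hg'⟩ := ih T hT i
      obtain ⟨h, hh, hh'⟩ := ih (S \ T) hU j
      have hTne : T.Nonempty := by rw [← Finset.card_pos, hT]; positivity
      have hUne : (S \ T).Nonempty := by rw [← Finset.card_pos, hU]; positivity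
      refine ⟨⁅g, h⁆, ?_, ?_⟩
      · rw [derivedSeries_succ]
        exact Subgroup.commutator_mem_commutator hg hh
      · have h1 : ((⁅g, h⁆ : G3) : SpecialLinearGroup (Fin 2) AG) =
            ⁅(g : SpecialLinearGroup (Fin 2) AG), (h : SpecialLinearGroup (Fin 2) AG)⁆ := rfl
        rw [h1, mv_comm _ _ _ _ _ _ (etaS_sq hTne) (etaS_sq hUne) hg' hh', ← hij,
          ← etaS_union Finset.disjoint_sdiff, Finset.union_sdiff_of_subset hTS]
  obtain ⟨g, hg, hg'⟩ := key n (Finset.range (2 ^ n)) (Finset.card_range _) 0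
  rw [hn, Subgroup.mem_bot] at hg
  rw [hg] at hg'
  have h1 := congrFun (congrFun hg' 0) 1
  have h2 : mv ((1 : G3) : SpecialLinearGroup (Fin 2) AG) 0 1 = 0 := by
    change (1 : Matrix (Fin 2) (Fin 2) AG) 0 1 = 0
    simp
  rw [h2] at h1
  apply etaS_ne (Finset.range (2 ^ n))
  rw [Matrix.add_apply, Matrix.smul_apply] at h1
  simpa [bas] using h1.symm

/-- There is a locally nilpotent, non-solvable 3-group of exponent dividing 9 which is
`n`-Engel for every `n ≥ 7`. -/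
theorem three_engel : ∃ (G : Type) (_ : Group G),
    (∀ K : Subgroup G, K.FG → Group.IsNilpotent K) ∧ IsPGroup 3 G ∧ (∀ g : G, g ^ 9 = 1) ∧
    (∀ n, 7 ≤ n → ∀ x y : G, eng x y n = 1) ∧ ¬ Group.IsSolvable G :=
  ⟨G3, inferInstance, locnil, pgroup, fun g => Subtype.ext (pow_nine g.1 g.2),
    fun n hn x y => engel x y n hn, not_solvable⟩

end Pool.Agent.Lib.MP_f7c5a7_al.Three
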